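import Pool.Agent.H712R2.MA.Stm

/-!
# The asymmetric lens inequality: abstract data (helper142)
-/

set_option autoImplicit false

noncomputable section

open MeasureTheory Filter Topology
open scoped BigOperators Matrix ENNReal

namespace Pool.Agent.TH142.E2

open H712MA

/-- a lens with an upper boundary arc of weight `P` and a lower one of weight `Q`
(`P + Q = 2` in the application; the harmonic measures of the arcs are `P/2`, `Q/2`) -/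
structure Arc (P Q : ℝ) where
  L : Lens
  q : ℂ → ℝ
  τ : ℝ → ℝ
  Ppos : 0 < P
  Qpos : 0 < Q
  meas_e : Measurable L.e
  cont : Continuous fun z => ‖L.e z‖
  meas_q : Measurable q
  q_nonneg : ∀ z, 0 ≤ q z
  q_le : ∀ z, q z ≤ 1
  re_le : ∀ z ∈ L.W, |z.re| ≤ 1
  up : ∀ x y y' : ℝ, τ x ≤ y → y < y' → (⟨x, y'⟩ : ℂ) ∈ L.W → ‖L.e ⟨x, y⟩‖ < ‖L.e ⟨x, y'⟩‖
  dn : ∀ x y y' : ℝ, y < y' → y' ≤ τ x → (⟨x, y⟩ : ℂ) ∈ L.W → ‖L.e ⟨x, y'⟩‖ < ‖L.e ⟨x, y⟩‖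
  der_up : ∀ m : ℕ, 1 ≤ m → ∀ x y : ℝ, (⟨x, y⟩ : ℂ) ∈ L.W → τ x < y →
    HasDerivAt (fun t : ℝ => ‖gf L m ⟨x, t⟩‖ ^ 2)
      (4 / (Real.pi * m * P) * q ⟨x, y⟩ * af L m ⟨x, y⟩) y
  der_dn : ∀ m : ℕ, 1 ≤ m → ∀ x y : ℝ, (⟨x, y⟩ : ℂ) ∈ L.W → y < τ x →
    HasDerivAt (fun t : ℝ => ‖gf L m ⟨x, t⟩‖ ^ 2)
      (-(4 / (Real.pi * m * Q) * q ⟨x, y⟩ * af L m ⟨x, y⟩)) y
  int_one : ∀ m : ℕ, 1 ≤ m → ∫⁻ p, ENNReal.ofReal (af L m p) = ENNReal.ofReal (m * Real.pi)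
  int_q : Tendsto (fun m : ℕ => (∫⁻ p, ENNReal.ofReal (af L m p * (1 - q p))) / (m : ℝ≥0∞))
      atTop (𝓝 0)

/-- the polar of `{x : P l_k(x) ≤ 1, -Q l_k(x) ≤ 1}` -/
def PolA {κ : Type} {n : ℕ} (P Q : ℝ) (l : κ → Fin n → ℝ) : Set (Fin n → ℝ) :=
  {y | ∀ x, (∀ k, P * (l k ⬝ᵥ x) ≤ 1 ∧ -Q * (l k ⬝ᵥ x) ≤ 1) → x ⬝ᵥ y ≤ 1}

/-- polytope form of the asymmetric inequality -/
def S_ZA (P Q : ℝ) : Prop :=
  ∀ (κ : Type) [Fintype κ] (n : ℕ) (l : κ → Fin n → ℝ), Spans l →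
    ENNReal.ofReal ((4 : ℝ) ^ n / n.factorial) ≤ volume (Bd l) * volume (PolA P Q l)

end Pool.Agent.TH142.E2
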