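import Pool.Agent.TH142.E2.Base

/-!
# The asymmetric lens: definitions (helper142)

`α ∈ (-π/2, π/2)`, `a = e^{iα}`, `h(z) = c (Li₂(a z) - Li₂(-ā z))`, `c = 1/((π/2-α)(π/2+α))`,
`z h'(z) = c log ((1 + ā z)/(1 - a z))`.
-/

set_option autoImplicit false

noncomputable section

open MeasureTheory Filter Topology
open scoped BigOperators Matrix ENNReal

namespace Pool.Agent.TH142.E2

/-- `a = e^{iα}` -/
def aa (α : ℝ) : ℂ := Complex.exp (α * Complex.I)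

/-- the constant `c = 1/((π/2-α)(π/2+α))` -/
def cc (α : ℝ) : ℝ := 1 / ((Real.pi / 2 - α) * (Real.pi / 2 + α))

/-- the coefficient `a^(n+1) - (-ā)^(n+1)` -/
def kp (α : ℝ) (n : ℕ) : ℂ := (aa α) ^ (n + 1) - (-(starRingEnd ℂ (aa α))) ^ (n + 1)

/-- the lens map `h(z) = c Σ κ_n z^(n+1)/(n+1)²` -/
def ah (α : ℝ) (z : ℂ) : ℂ :=
  (cc α : ℂ) * ∑' n : ℕ, kp α n * z ^ (n + 1) / ((n + 1 : ℕ) : ℂ) ^ 2

/-- its derivative `h'(z) = c Σ κ_n z^n/(n+1)` -/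
def ad (α : ℝ) (z : ℂ) : ℂ :=
  (cc α : ℂ) * ∑' n : ℕ, kp α n * z ^ n / ((n + 1 : ℕ) : ℂ)

/-- the Cayley transform `(1 + ā z)/(1 - a z)` -/
def cay (α : ℝ) (z : ℂ) : ℂ := (1 + starRingEnd ℂ (aa α) * z) / (1 - aa α * z)

open Classical in
/-- the normalised angle: `arg/(π/2-α)` above, `-arg/(π/2+α)` below -/
def qz (α : ℝ) (z : ℂ) : ℝ :=
  if 0 ≤ (cay α z).arg then (cay α z).arg / (Real.pi / 2 - α)
  else -(cay α z).arg / (Real.pi / 2 + α)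

/-- T1: the lens map on the disc -/
def S_T1 : Prop := ∀ α : ℝ, |α| < Real.pi / 2 →
  (∀ z : ℂ, ‖z‖ < 1 → HasDerivAt (ah α) (ad α z) z) ∧
  (∀ z : ℂ, ‖z‖ < 1 → cc α * Real.cos α < (ad α z).re) ∧
  (∀ z w : ℂ, ‖z‖ < 1 → ‖w‖ < 1 → cc α * Real.cos α * ‖z - w‖ ≤ ‖ah α z - ah α w‖) ∧
  (∀ z : ℂ, ‖z‖ < 1 → ‖ah α z‖ ≤ cc α * (Real.pi ^ 2 / 3) * ‖z‖) ∧
  ad α 0 = ((2 * Real.cos α * cc α : ℝ) : ℂ) ∧
  DifferentiableOn ℂ (ad α) (Metric.ball 0 1)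

/-- T2: the real part is bounded by one -/
def S_T2 : Prop := ∀ α : ℝ, |α| < Real.pi / 2 → ∀ z : ℂ, ‖z‖ < 1 → |(ah α z).re| ≤ 1

/-- T3: `z h'(z) = c log cay`, the angle, its boundary values and continuity -/
def S_T3 : Prop := ∀ α : ℝ, |α| < Real.pi / 2 →
  (∀ z : ℂ, ‖z‖ < 1 → z * ad α z = (cc α : ℂ) * Complex.log (cay α z)) ∧
  (∀ z : ℂ, ‖z‖ < 1 → -(Real.pi / 2 + α) < (cay α z).arg ∧ (cay α z).arg < Real.pi / 2 - α) ∧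
  ContinuousOn (qz α) (Metric.ball 0 1) ∧
  (∀ z : ℂ, ‖z‖ < 1 → cay α z ∈ Complex.slitPlane) ∧
  (∀ θ : ℝ, aa α * Complex.exp (θ * Complex.I) ≠ 1 →
    starRingEnd ℂ (aa α) * Complex.exp (θ * Complex.I) ≠ -1 →
    Tendsto (fun r : ℝ => qz α ((r : ℂ) * Complex.exp (θ * Complex.I))) (𝓝[<] 1) (𝓝 1))

/-- T5: a vertical line meets the curve `Im (z h') = 0` at most once -/
def S_T5 : Prop := ∀ α : ℝ, |α| < Real.pi / 2 → ∀ z w : ℂ, ‖z‖ < 1 → ‖w‖ < 1 →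
  (cay α z).arg = 0 → (cay α w).arg = 0 → (ah α z).re = (ah α w).re → z = w

end Pool.Agent.TH142.E2
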